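import Mathlib
import Pool.Agent.MP_36f78e_lc.H24.Cl.Defs
import Pool.Agent.MP_36f78e_lc.H75C.Defs
import Pool.Agent.MP_36f78e_lc.H75C.Main

namespace Pool.Agent.Results.MP_36f78e_lc.Clonable

open Pool.Agent.MP_36f78e_lc.H24.Cl Pool.Agent.MP_36f78e_lc.H75C

/-- Relative to a classical oracle there is a language with subset-state witnesses that an explicit
circuit of polynomial size verifies and another one clones, both with exponentially small error,
while every verifier with classical witnesses, from a given countable list of families of cost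
below `2 ^ n`, errs on arbitrarily long inputs. -/
theorem result (V : ℕ → List Bool → Verifier) (hu : ∀ k x, (V k x).Valid)
    (hc : ∀ k, ∃ N, ∀ x : List Bool, N ≤ x.length → (V k x).p + (V k x).queries < 2 ^ x.length) :
    ∃ (A : List Bool → Bool) (L : Set (List Bool)),
      (∀ n, Fintype.card (Wire n) ≤ (n + 2) ^ 100 ∧ Valid ((n + 2) ^ 100) (verifier n) ∧
        Valid ((n + 2) ^ 100) (cloner n)) ∧
      (∀ x ∈ L, ∃ S : Finset (Wit x.length → Bool), S.Nonempty ∧
        1 - 1 / 2 ^ x.length ≤ accept A (unif S) ∧ 1 - 1 / 2 ^ x.length ≤ fidelity A (unif S)) ∧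
      (∀ x ∉ L, ∀ w : (Wit x.length → Bool) → ℂ, ∑ y, ‖w y‖ ^ 2 = 1 →
        accept A w ≤ 1 / 2 ^ x.length) ∧
      ∀ k N, ∃ x : List Bool, N ≤ x.length ∧
        ((x ∈ L ∧ ∀ y, (V k x).accProb A (Pi.single y 1) < 2 / 3) ∨
          (x ∉ L ∧ ∃ y, 1 / 3 < (V k x).accProb A (Pi.single y 1))) := by
  obtain ⟨A, hA, hw⟩ := MP_36f78e_lc.H75C.diag V hu hc
  exact ⟨A, {x | MP_36f78e_lc.H75C.Yes A x.length}, fun n => ⟨(card_wire n).trans
    (Nat.pow_le_pow_right (by omega) (by norm_num)), verifier_valid n, cloner_valid n⟩,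
    fun x hx => hx, fun x hx => (hA _).resolve_left hx, hw⟩

end Pool.Agent.Results.MP_36f78e_lc.Clonable
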