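import Mathlib
import Pool.Agent.MP_36f78e_lc.H24.Cl.Defs
import Pool.Agent.MP_36f78e_lc.H6.Defs
import Pool.Agent.MP_36f78e_lc.H6.Main

namespace Pool.Agent.Results.MP_36f78e_lc.Collapse

open Pool.Agent.MP_36f78e_lc.H24.Cl Pool.Agent.MP_36f78e_lc.H6

/-- There is a classical oracle that answers, in one query, every promise problem with classical
witnesses and a quantum verifier relative to itself, while each of its own bits at exponentially
long addresses has a subset-state witness of polynomial size that a two-query verifier accepts
with certainty. -/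
theorem result (D : List Bool → Verifier) (hD : ∀ c, (D c).Valid ∧ Small (D c) c.length)
    (E : List Bool → List Bool) (hE : ∀ x, (E x).length ≤ 2 ^ x.length) :
    ∃ A : List Bool → Bool,
      (∀ c, Ans (D c) A (A (true :: c))) ∧
      (∀ n, (test n).Valid) ∧
      ∀ x : List Bool,
        (∃ S : Finset (Fin (NN x.length) → Bool), S.Nonempty ∧
          tacc A (A (E x)) x (subsetState S) = 1) ∧
        ∀ w, IsState w → tacc A (!A (E x)) x w ≤ 1 / 3 := by
  obtain ⟨A, h1, h2⟩ := main hD hE
  exact ⟨A, h1, test_valid, h2⟩

end Pool.Agent.Results.MP_36f78e_lc.Collapse
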