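import Mathlib
import Pool.Agent.MP_36f78e_lc.H24.Cl.Defs
import Pool.Agent.MP_36f78e_lc.H75T.Defs
import Pool.Agent.MP_36f78e_lc.H75T.Main

namespace Pool.Agent.Results.MP_36f78e_lc.Generic

open Pool.Agent.MP_36f78e_lc.H24.Cl Pool.Agent.MP_36f78e_lc.H75T

/-- There is a fixed oracle `B` such that one explicit verifier with quantum witnesses has the
gap between `2 / 3` and `1 / 3` for every oracle `A`, without any promise, while for all oracles
`A` outside a meagre set every verifier with classical witnesses, from a given countable list of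
families of subexponential cost, errs on infinitely many inputs. -/
theorem result : ∃ (B : List Bool → Bool) (L : (List Bool → Bool) → Set (List Bool)),
    (∀ n, (total n).Valid) ∧
    (∀ A x,
      (x ∈ L A → ∃ S : Finset (Fin (total x.length).p → Bool), S.Nonempty ∧
        2 / 3 ≤ (total x.length).accProb (join B A) (subsetState S)) ∧
      (x ∉ L A → ∀ w, IsState w → (total x.length).accProb (join B A) w ≤ 1 / 3)) ∧
    ∀ V : ℕ → List Bool → Verifier, (∀ k x, (V k x).Valid) →
      (∀ k, ∃ N, ∀ x : List Bool, N ≤ x.length →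
        2 ^ 19 * Nat.log 2 ((V k x).p + (V k x).queries + 1) ^ 3 ≤ x.length) →
      IsMeagre {A | ∃ k N, ∀ x : List Bool, N ≤ x.length →
        Decides (V k x) (join B A) (x ∈ L A)} := by
  obtain ⟨B, hB⟩ := exists_oracle
  refine ⟨B, fun A => {x | Pos B A x.length}, total_valid,
    fun A x => ⟨id, ((hB _).1 A).resolve_left⟩, fun V hV hc => ?_⟩
  simp only [Set.ofPred_exists]
  exact isMeagre_iUnion fun k => isMeagre_iUnion fun N =>
    (meagre (fun n => (hB n).2) (V k) (hV k) (hc k) N).isMeagre

end Pool.Agent.Results.MP_36f78e_lc.Generic
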