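import Pool.Agent.MP_36f78e_lc.H46.Gap
import Pool.Agent.MP_36f78e_lc.H46.Exp
import Pool.Agent.MP_36f78e_lc.H46.Lab
import Pool.Agent.MP_36f78e_lc.H46.Tail
import Pool.Agent.MP_36f78e_lc.H46.Bad
import Pool.Agent.MP_36f78e_lc.H46.PE
import Pool.Agent.MP_36f78e_lc.H46.Tan
import Pool.Agent.MP_36f78e_lc.H46.Cheb
import Pool.Agent.MP_36f78e_lc.H46.Heis
import Pool.Agent.MP_36f78e_lc.H46.Big
import Pool.Agent.MP_36f78e_lc.H46.Comp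
import Pool.Agent.MP_36f78e_lc.H46.Stab
import Pool.Agent.MP_36f78e_lc.H46.Cone
import Pool.Agent.MP_36f78e_lc.H24G.Both
import Pool.Agent.MP_36f78e_lc.H24N.Code2
import Pool.Agent.MP_36f78e_lc.H24N.L1
import Pool.Agent.MP_36f78e_lc.H24N.Odd
import Pool.Agent.MP_36f78e_lc.H24N.Kill
import Pool.Agent.MP_36f78e_lc.H24N.Big2
import Pool.Agent.MP_36f78e_lc.H24N.Enc

/-! Local Hamiltonians without low-energy states in the first level of the magic hierarchy, in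
either order, or among Clifford images of unique gapped ground states. -/

namespace Pool.Agent.Results.MP_36f78e_lc.MagicLevelOne

open Matrix Pool.Agent.MP_36f78e_lc.H46 Pool.Agent.MP_36f78e_lc.H24N
open scoped ComplexOrder

theorem result :
    ∃ (k : ℕ) (ε c : ℝ), 0 < ε ∧ 0 < c ∧ ∀ n₀ : ℕ, ∃ n : ℕ, n₀ ≤ n ∧
      ∃ (M : ℕ) (h : Fin M → Op (Fin n)) (S : Fin M → Finset (Fin n)), M ≤ n ∧
        (∀ j, (S j).card ≤ k ∧ ActsOn (S j) (h j) ∧ (h j).PosSemidef ∧ (1 - h j).PosSemidef) ∧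
        (∀ q, (Finset.univ.filter fun j => q ∈ S j).card ≤ k) ∧
        (∃ ψ₀ : St (Fin n), ψ₀ ≠ 0 ∧ ∀ j, h j *ᵥ ψ₀ = 0) ∧
        ∀ (a t d : ℕ) (U : Op (Fin n ⊕ Fin a)) (ψ : St (Fin n ⊕ Fin a)), HasDepth d U →
          ((∃ φ, From (Pi.single 0 1) t φ ∧ ψ = U *ᵥ φ ∧
              (16 : ℝ) ^ d ≤ c * n ∧ (4 : ℝ) ^ d * t ≤ c * n) ∨
            (From (U *ᵥ Pi.single 0 1) t ψ ∧
              ((n : ℝ) + a) * 4 ^ d ≤ c * n ^ 2 ∧ (t : ℝ) ≤ c * n) ∨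
            (∃ (N s : ℕ) (Δ : ℝ) (g : Fin N → Op (Fin n ⊕ Fin a))
              (T : Fin N → Finset (Fin n ⊕ Fin a)) (φ : St (Fin n ⊕ Fin a)),
              0 < N ∧ 0 < s ∧ 0 < Δ ∧ Δ ≤ 1 ∧ star φ ⬝ᵥ φ = 1 ∧
              (∀ i, (g i)ᴴ = g i ∧ g i * g i = g i ∧ ActsOn (T i) (g i) ∧ (T i).card ≤ s ∧
                g i *ᵥ φ = 0) ∧
              (∀ v, Δ * ((star v ⬝ᵥ v).re - ‖star φ ⬝ᵥ v‖ ^ 2) ≤
                ∑ i, (star v ⬝ᵥ (g i *ᵥ v)).re) ∧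
              From φ t ψ ∧ (N : ℝ) * (s : ℝ) ^ 2 ≤ c * Δ * n ^ 2 ∧ (t : ℝ) ≤ c * n)) →
          ε * n ≤ ∑ j, (star ψ ⬝ᵥ (withAnc (Fin a) (h j) *ᵥ ψ)).re := by
  obtain ⟨k, ε, c, hε, hc, h⟩ := Pool.Agent.MP_36f78e_lc.H24G.main3
    (code2 (exp_of gap) (pe_of surj (bad tail)) tan lab) four_ok (big cheb side heis) prep
    cone comp stab Pool.Agent.MP_36f78e_lc.H24N.l1 (enc odd) (big2 odd kill)
  refine ⟨k, ε, c, hε, hc, fun n₀ => ?_⟩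
  obtain ⟨n, hn, M, h, S, h1, h2, h3, h4, h5, h6, h7⟩ := h n₀
  refine ⟨n, hn, M, h, S, h1, h2, h3, h4, ?_⟩
  rintro a t d U ψ hU (⟨φ, hφ, rfl, e1, e2⟩ | ⟨hψ, e1, e2⟩ |
    ⟨N, s, Δ, g, T, φ, a1, a2, a3, a4, a5, a6, a7, hψ, e1, e2⟩)
  · refine h5 a t d φ U ?_ hU e1 e2
    clear e2
    induction hφ with
    | base => exact Prep.zero
    | cliff V hV _ ih => exact Prep.cliff V hV ih
    | gate T V hV hT _ ih => exact Prep.gate T V hV hT ih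
  · exact h6 a t d ψ U hU hψ e1 e2
  · refine h7 a t N s Δ g T φ ψ a1 a2 a3 a4 (fun i => ⟨(a6 i).1, (a6 i).2.1⟩)
      (fun i => (a6 i).2.2.1.loc) (fun i => (a6 i).2.2.2.1) (fun i => (a6 i).2.2.2.2) ?_
      (fun v => ?_) hψ e1 e2
    · rw [← Cheb.dot_self, a5, Complex.one_re]
    · rw [← Cheb.dot_self]
      exact a7 v

end Pool.Agent.Results.MP_36f78e_lc.MagicLevelOne
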